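import Mathlib
import Pool.Agent.R492.Util.Debreu
import Pool.Agent.H748R3.Stat

/-!
# A Hausdorff topology with the hereditary continuous representability property which fails the
semicontinuous representability property
-/

set_option autoImplicit false

namespace Pool.Agent.Results.MP_67ce71_gt.HausdorffCounterexample

open Set Topology Filter

/-- `r` is a total preorder. -/
structure TotalPreorder {X : Type} (r : X → X → Prop) : Prop where
  refl : ∀ x, r x x
  trans : ∀ x y z, r x y → r y z → r x z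
  total : ∀ x y, r x y ∨ r y x

/-- The strict part of `r`. -/
def Strict {X : Type} (r : X → X → Prop) (x y : X) : Prop := r x y ∧ ¬ r y x

/-- `U(x)` -/
def U {X : Type} (r : X → X → Prop) (x : X) : Set X := {y | Strict r x y}

/-- `L(x)` -/
def L {X : Type} (r : X → X → Prop) (x : X) : Set X := {y | Strict r y x}

/-- `u` is a utility representation of `r`. -/
def IsUtility {X : Type} (r : X → X → Prop) (u : X → ℝ) : Prop := ∀ x y, r x y ↔ u x ≤ u y

/-- Semicontinuous representability property. -/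
def SRP (X : Type) [TopologicalSpace X] : Prop :=
  (∀ r : X → X → Prop, TotalPreorder r → (∀ x, IsOpen (U r x)) →
    ∃ u : X → ℝ, (∀ a, IsOpen {x | a < u x}) ∧ IsUtility r u) ∧
  (∀ r : X → X → Prop, TotalPreorder r → (∀ x, IsOpen (L r x)) →
    ∃ u : X → ℝ, (∀ a, IsOpen {x | u x < a}) ∧ IsUtility r u)

/-- Continuous representability property. -/
def CRP (X : Type) [TopologicalSpace X] : Prop :=
  ∀ r : X → X → Prop, TotalPreorder r → (∀ x, IsOpen (U r x)) → (∀ x, IsOpen (L r x)) →
    ∃ u : X → ℝ, Continuous u ∧ IsUtility r u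

/-- Hereditary continuous representability property. -/
def HCRP (X : Type) [TopologicalSpace X] : Prop := ∀ Y : Set X, Y.Nonempty → CRP Y

/-! ### The space -/

/-- The real line, with a topology finer than the usual one. -/
structure Line where
  /-- the underlying real number -/
  val : ℝ

theorem Line.ext' {x y : Line} (h : x.val = y.val) : x = y := by
  cases x; cases y; simp_all

/-- `T` is open iff each of its points has a Euclidean neighbourhood which is contained in `T` up to
countably many points. -/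
instance : TopologicalSpace Line where
  IsOpen T := ∀ x ∈ T, ∃ V : Set ℝ, IsOpen V ∧ x.val ∈ V ∧ {y : Line | y.val ∈ V ∧ y ∉ T}.Countable
  isOpen_univ := fun x _ => ⟨univ, isOpen_univ, mem_univ _, by simp⟩
  isOpen_inter := by
    intro S T hS hT x hx
    obtain ⟨V, hV, hxV, hc⟩ := hS x hx.1
    obtain ⟨V', hV', hxV', hc'⟩ := hT x hx.2
    refine ⟨V ∩ V', hV.inter hV', ⟨hxV, hxV'⟩, (hc.union hc').mono ?_⟩
    rintro y ⟨⟨h1, h2⟩, h3⟩
    by_cases hyS : y ∈ S
    · right; exact ⟨h2, fun h => h3 ⟨hyS, h⟩⟩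
    · left; exact ⟨h1, hyS⟩
  isOpen_sUnion := by
    intro 𝒮 h𝒮 x hx
    obtain ⟨S, hS, hxS⟩ := hx
    obtain ⟨V, hV, hxV, hc⟩ := h𝒮 S hS x hxS
    refine ⟨V, hV, hxV, hc.mono ?_⟩
    rintro y ⟨h1, h2⟩
    exact ⟨h1, fun h => h2 ⟨S, hS, h⟩⟩

theorem isOpen_line (T : Set Line) : IsOpen T ↔ ∀ x ∈ T, ∃ V : Set ℝ, IsOpen V ∧ x.val ∈ V ∧
    {y : Line | y.val ∈ V ∧ y ∉ T}.Countable := Iff.rfl

theorem isOpen_preimage (V : Set ℝ) (hV : IsOpen V) : IsOpen {x : Line | x.val ∈ V} := by
  rw [isOpen_line]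
  intro x hx
  refine ⟨V, hV, hx, ?_⟩
  have : {y : Line | y.val ∈ V ∧ y ∉ {x : Line | x.val ∈ V}} = ∅ := by
    ext y
    simp only [mem_ofPred_eq, mem_empty_iff_false, iff_false, not_and, not_not]
    exact fun h => h
  rw [this]
  exact countable_empty

theorem t2_line : T2Space Line := by
  refine ⟨fun x y hxy => ?_⟩
  have h : x.val ≠ y.val := fun h => hxy (Line.ext' h)
  obtain ⟨V, V', hV, hV', hx, hy, hd⟩ := t2_separation h
  refine ⟨_, _, isOpen_preimage V hV, isOpen_preimage V' hV', hx, hy, ?_⟩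
  rw [Set.disjoint_left] at hd ⊢
  exact fun z hz hz' => hd hz hz'

/-! ### The property HCRP -/

section Hereditary

variable (Y : Set Line)

/-- Relatively open sets. -/
theorem open_sub (P : Set Y) (hP : IsOpen P) (y : Y) (hy : y ∈ P) :
    ∃ V : Set ℝ, IsOpen V ∧ y.1.val ∈ V ∧ {z : Y | z.1.val ∈ V ∧ z ∉ P}.Countable := by
  obtain ⟨T, hT, rfl⟩ := hP
  obtain ⟨V, hV, hyV, hc⟩ := (isOpen_line T).mp hT y.1 hy
  refine ⟨V, hV, hyV, ?_⟩
  exact hc.preimage_of_injOn (f := fun z : Y => z.1) Subtype.val_injective.injOn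

/-- The condensation points. -/
def cond : Set Y := {y | ∀ V : Set ℝ, IsOpen V → y.1.val ∈ V → ¬ {z : Y | z.1.val ∈ V}.Countable}

/-- The countable family. -/
def fam : Set (Set Y) :=
  ((fun V : Set ℝ => {z : Y | z.1.val ∈ V ∧ z ∈ cond Y}) '' TopologicalSpace.countableBasis ℝ) ∪
  ((fun y : Y => {y}) '' (cond Y)ᶜ)

theorem countable_compl_cond : ((cond Y)ᶜ).Countable := by
  have h1 : (cond Y)ᶜ ⊆ ⋃ V ∈ {V ∈ TopologicalSpace.countableBasis ℝ |
      {z : Y | z.1.val ∈ V}.Countable}, {z : Y | z.1.val ∈ V} := by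
    intro y hy
    simp only [cond, mem_compl_iff, mem_ofPred_eq, not_forall, not_not] at hy
    obtain ⟨V, hV, hyV, hc⟩ := hy
    obtain ⟨W, hW, hyW, hWV⟩ := (TopologicalSpace.isBasis_countableBasis ℝ).exists_subset_of_mem_open
      hyV hV
    exact mem_iUnion₂.mpr ⟨W, ⟨hW, hc.mono fun z hz => hWV hz⟩, hyW⟩
  refine Set.Countable.mono h1 (Set.Countable.biUnion ?_ fun V hV => hV.2)
  exact (TopologicalSpace.countable_countableBasis ℝ).mono fun V hV => hV.1

theorem countable_fam : (fam Y).Countable :=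
  ((TopologicalSpace.countable_countableBasis ℝ).image _).union ((countable_compl_cond Y).image _)

/-- The main point: if `P`, `N` are disjoint open sets and the complement of `S` is contained in `N`, then
each point of `P` has a member of the family between it and `S`. -/
theorem fam_between (S P N : Set Y) (hP : IsOpen P) (hN : IsOpen N) (hPN : Disjoint P N)
    (hPS : P ⊆ S) (hSN : ∀ w ∉ S, w ∈ N) (y : Y) (hy : y ∈ P) : ∃ B ∈ fam Y, y ∈ B ∧ B ⊆ S := by
  by_cases hyc : y ∈ cond Y
  · obtain ⟨V, hV, hyV, hc⟩ := open_sub Y P hP y hy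
    obtain ⟨W, hW, hyW, hWV⟩ := (TopologicalSpace.isBasis_countableBasis ℝ).exists_subset_of_mem_open
      hyV hV
    refine ⟨_, Or.inl ⟨W, hW, rfl⟩, ⟨hyW, hyc⟩, ?_⟩
    rintro w ⟨hwW, hwc⟩
    by_contra hwS
    obtain ⟨V', hV', hwV', hc'⟩ := open_sub Y N hN w (hSN w hwS)
    apply hwc (V ∩ V') (hV.inter hV') ⟨hWV hwW, hwV'⟩
    refine (hc.union hc').mono ?_
    rintro z ⟨hz1, hz2⟩
    by_cases hzP : z ∈ P
    · right; exact ⟨hz2, fun hzN => Set.disjoint_left.mp hPN hzP hzN⟩
    · left; exact ⟨hz1, hzP⟩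
  · exact ⟨{y}, Or.inr ⟨y, hyc, rfl⟩, rfl, by
      rintro _ rfl
      exact hPS hy⟩

theorem crp_sub : CRP Y := by
  classical
  intro r hr hU hL
  let _ : Preorder Y :=
    { le := r
      le_refl := hr.refl
      le_trans := hr.trans }
  have hnl : ∀ a b : Y, ¬ a < b → b ≤ a := by
    intro a b h
    by_contra hc
    rcases hr.total a b with h1 | h1
    · exact h (lt_of_le_not_ge h1 hc)
    · exact hc h1
  have hL' : ∀ x : Y, IsOpen (Iio x) := fun x => hL x
  have hU' : ∀ x : Y, IsOpen (Ioi x) := fun x => hU x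
  obtain ⟨u, hu, hu'⟩ := Pool.Agent.R492.Util.exists_utility hr.total hL' hU' (fam Y)
    (countable_fam Y) (by
      intro x y hyx
      by_cases hz : ∃ z, y < z ∧ z < x
      · obtain ⟨z, hyz, hzx⟩ := hz
        refine fam_between Y (Iio x) (Iio z) (Ioi z) (hL' z) (hU' z) ?_ ?_ ?_ y hyz
        · rw [Set.disjoint_left]
          exact fun w hw hw' => lt_asymm (show w < z from hw) (show z < w from hw')
        · exact fun w hw => lt_trans hw hzx
        · exact fun w hw => lt_of_lt_of_le hzx (hnl w x hw)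
      · push Not at hz
        refine fam_between Y (Iio x) (Iio x) (Ioi y) (hL' x) (hU' y) ?_ (le_refl _) ?_ y hyx
        · rw [Set.disjoint_left]
          exact fun w hw hw' => hz w hw' hw
        · exact fun w hw => lt_of_lt_of_le hyx (hnl w x hw))
    (by
      intro x y hxy
      by_cases hz : ∃ z, x < z ∧ z < y
      · obtain ⟨z, hxz, hzy⟩ := hz
        refine fam_between Y (Ioi x) (Ioi z) (Iio z) (hU' z) (hL' z) ?_ ?_ ?_ y hzy
        · rw [Set.disjoint_left]
          exact fun w hw hw' => lt_asymm (show z < w from hw) (show w < z from hw')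
        · exact fun w hw => lt_trans hxz hw
        · exact fun w hw => lt_of_le_of_lt (hnl x w hw) hxz
      · push Not at hz
        refine fam_between Y (Ioi x) (Ioi x) (Iio y) (hU' x) (hL' y) ?_ (le_refl _) ?_ y hxy
        · rw [Set.disjoint_left]
          exact fun w hw hw' => hz w hw hw'
        · exact fun w hw => lt_of_le_of_lt (hnl x w hw) hxy)
  exact ⟨u, hu, hu'⟩

end Hereditary

/-! ### The failure of SRP -/

theorem no_embedding {W : Type} [LinearOrder W] (hW : Pool.Agent.H748R3.OmegaOneLike W)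
    (u : W → ℝ) (hu : StrictMono u) : False := by
  have hwf := hW.wf
  have hne : ∀ a : W, (Ioi a).Nonempty := by
    intro a
    obtain ⟨b, hb⟩ := hW.bdd {a} (countable_singleton a)
    exact ⟨b, hb a rfl⟩
  let nx : W → W := fun a => WellFounded.min (wellFounded_lt (α := W)) (Ioi a) (hne a)
  have hnx1 : ∀ a, a < nx a := fun a => WellFounded.min_mem (wellFounded_lt (α := W)) _ (hne a)
  have hnx2 : ∀ a b, a < b → nx a ≤ b := fun a b hab =>
    not_lt.mp (WellFounded.not_lt_min (wellFounded_lt (α := W)) (Ioi a) hab)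
  have hq : ∀ a, ∃ q : ℚ, u a < q ∧ (q : ℝ) < u (nx a) := fun a => exists_rat_btwn (hu (hnx1 a))
  choose q hq1 hq2 using hq
  have hinj : Function.Injective q := by
    intro a b hab
    by_contra hne'
    rcases lt_or_gt_of_ne hne' with h | h
    · have h1 := hu.monotone (hnx2 a b h)
      have h2 := hq2 a
      have h3 := hq1 b
      rw [hab] at h2
      linarith
    · have h1 := hu.monotone (hnx2 b a h)
      have h2 := hq2 b
      have h3 := hq1 a
      rw [← hab] at h2
      linarith
  exact hW.unc hinj.countable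

theorem not_srp : ¬ SRP Line := by
  classical
  intro hsrp
  set W := (Cardinal.aleph 1).ord.ToType with hWdef
  have hW : Pool.Agent.H748R3.OmegaOneLike W := Pool.Agent.H748R3.omegaOneLike_toType
  obtain ⟨ι, hι⟩ : ∃ ι : W → ℝ, Function.Injective ι := by
    have h1 : Cardinal.mk W ≤ Cardinal.mk ℝ := by
      rw [hWdef, Cardinal.mk_ord_toType, Cardinal.mk_real]
      exact Cardinal.aleph_one_le_continuum
    obtain ⟨e⟩ := h1
    exact ⟨e, e.injective⟩
  -- `x ≾ y` unless `y = ι β` and (`x` is not in the range or `x = ι α`, `β < α`)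
  let r : Line → Line → Prop := fun x y => ∀ β, ι β = y.val → ∃ α ≤ β, ι α = x.val
  have hr : TotalPreorder r := by
    refine ⟨fun x β hβ => ⟨β, le_rfl, hβ⟩, ?_, ?_⟩
    · intro x y z hxy hyz β hβ
      obtain ⟨α, hα, hαy⟩ := hyz β hβ
      obtain ⟨α', hα', hαx⟩ := hxy α hαy
      exact ⟨α', hα'.trans hα, hαx⟩
    · intro x y
      by_cases h : r x y
      · exact Or.inl h
      · right
        simp only [r, not_forall, not_exists, not_and] at h
        obtain ⟨β, hβ, h⟩ := h
        intro α hα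
        refine ⟨β, ?_, hβ⟩
        by_contra hc
        exact h α (le_of_lt (not_le.mp hc)) hα
  have hopen : ∀ x, IsOpen (U r x) := by
    intro x
    rw [isOpen_line]
    intro y hy
    refine ⟨univ, isOpen_univ, mem_univ _, ?_⟩
    -- `x = ι α`
    obtain ⟨hxy, hyx⟩ := hy
    simp only [r, not_forall, not_exists, not_and] at hyx
    obtain ⟨α, hα, -⟩ := hyx
    have h1 : {z : Line | z.val ∈ univ ∧ z ∉ U r x} ⊆
        (fun β => (⟨ι β⟩ : Line)) '' (Iic α) := by
      rintro z ⟨-, hz⟩
      have h2 : r z x := by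
        rcases hr.total z x with h | h
        · exact h
        · by_contra hc
          exact hz ⟨h, hc⟩
      obtain ⟨β, hβ, hβz⟩ := h2 α hα
      exact ⟨β, hβ, Line.ext' hβz⟩
    refine Set.Countable.mono h1 (Set.Countable.image ?_ _)
    have : Iic α = insert α (Iio α) := by
      ext z; simp [le_iff_eq_or_lt]
    rw [this]
    exact (hW.initial α).insert α
  obtain ⟨u, -, hu⟩ := hsrp.1 r hr hopen
  refine no_embedding hW (fun α => u ⟨ι α⟩) ?_
  intro α β hαβ
  have h1 : ¬ r ⟨ι β⟩ ⟨ι α⟩ := by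
    intro h
    obtain ⟨γ, hγ, hγβ⟩ := h α rfl
    have := hι hγβ
    subst this
    exact absurd hαβ (not_lt.mpr hγ)
  have h2 := (hu ⟨ι β⟩ ⟨ι α⟩).not.mp h1
  exact not_le.mp h2

/-- **Negative answer to Q1.** There is a Hausdorff topological space with the hereditary continuous
representability property but without the semicontinuous representability property. -/
theorem result : ∃ (X : Type) (_ : TopologicalSpace X), T2Space X ∧ HCRP X ∧ ¬ SRP X :=
  ⟨Line, inferInstance, t2_line, fun Y _ => crp_sub Y, not_srp⟩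

end Pool.Agent.Results.MP_67ce71_gt.HausdorffCounterexample
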